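import Pool.Agent.Lib.MP_b03ab8_lc.Defs

/-!
# Definitions for the analysis of the earliest schedule (part A)

`NGraph`: linear graph in normalized form (arc `e` says: occurrence `m e + a' e * t` of task
`s e` precedes occurrence `n e + a e * t` of task `d e`, for all `t : ℕ`).
`Walk`: walks in a finite directed multigraph.
`VE`: the edges of the level graph on `T × ZMod Y`.
-/

open Finset

namespace Pool.Agent.LinSched

/-- `Walk s d u l v`: the list `l` of edges is a walk from `u` to `v`; the edge `e` goes from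
`s e` to `d e`. -/
inductive Walk {V ι : Type} (s d : ι → V) : V → List ι → V → Prop
  | nil (v : V) : Walk s d v [] v
  | cons (e : ι) {l : List ι} {v : V} : Walk s d (d e) l v → Walk s d (s e) (e :: l) v

/-- A normalized linear graph with tasks `T` and arcs `ι`. -/
structure NGraph (T ι : Type) where
  p : T → ℕ
  s : ι → T
  d : ι → T
  a : ι → ℕ
  a' : ι → ℕ
  m : ι → ℕ
  n : ι → ℕ

variable {T ι : Type}

/-- Positivity and non-reentrance. -/
structure NGraph.Ok (G : NGraph T ι) : Prop where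
  p_pos : ∀ i, 0 < G.p i
  a_pos : ∀ e, 0 < G.a e
  a'_pos : ∀ e, 0 < G.a' e
  m_pos : ∀ e, 0 < G.m e
  n_pos : ∀ e, 0 < G.n e
  loop : ∀ i, ∃ e, G.s e = i ∧ G.d e = i ∧ G.a e = 1 ∧ G.a' e = 1 ∧ G.m e = 1 ∧ G.n e = 2

/-- `τ` is the earliest schedule: all constraints hold and every occurrence starts at time `0`
or is attained by a constraint. -/
structure NGraph.IsTau (G : NGraph T ι) (τ : T → ℕ → ℕ) : Prop where
  le : ∀ e t, τ (G.s e) (G.m e + G.a' e * t) + G.p (G.s e) ≤ τ (G.d e) (G.n e + G.a e * t)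
  att : ∀ j n, 1 ≤ n → τ j n = 0 ∨ ∃ e t, G.d e = j ∧ n = G.n e + G.a e * t ∧
    τ j n = τ (G.s e) (G.m e + G.a' e * t) + G.p (G.s e)

/-- All data are bounded by powers of `R`. -/
structure NGraph.Bnd [Fintype T] [Fintype ι] (G : NGraph T ι) (R : ℕ) : Prop where
  two_le : 2 ≤ R
  cardT : Fintype.card T ≤ R
  cardI : Fintype.card ι ≤ R
  p_le : ∀ i, G.p i ≤ R
  a_le : ∀ e, G.a e ≤ R
  a'_le : ∀ e, G.a' e ≤ R
  m_le : ∀ e, G.m e ≤ R ^ 3
  n_le : ∀ e, G.n e ≤ R ^ 3
  prod_a : ∏ e, G.a e ≤ R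
  prod_a' : ∏ e, G.a' e ≤ R

/-- Index potentials: `v (s e) * a' e ≤ v (d e) * a e`. -/
structure NGraph.IsPot [Fintype ι] (G : NGraph T ι) (R : ℕ) (v : T → ℕ) : Prop where
  pos : ∀ i, 0 < v i
  le : ∀ e, v (G.s e) * G.a' e ≤ v (G.d e) * G.a e
  bd : ∀ i, v i ≤ R ^ 2
  dvd : ∀ i, v i ∣ (∏ e, G.a e) * ∏ e, G.a' e

/-! ## The level graph -/

/-- The modulus of the level graph. -/
def NGraph.Y [Fintype ι] (G : NGraph T ι) : ℕ := (∏ e, G.a e) * (∏ e, G.a' e) ^ 2

/-- The height of an arc. -/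
def NGraph.D (G : NGraph T ι) (v : T → ℕ) (e : ι) : ℤ :=
  (v (G.d e) : ℤ) * G.n e - (v (G.s e) : ℤ) * G.m e

/-- The edges of the level graph: tight arcs `e` together with a residue class `x` of
`v (s e) * index` for which the constraint applies. -/
def NGraph.VE [Fintype ι] (G : NGraph T ι) (v : T → ℕ) : Type :=
  {q : ι × ZMod G.Y // v (G.s q.1) * G.a' q.1 = v (G.d q.1) * G.a q.1 ∧
    ∃ t : ℕ, q.2 = ((v (G.s q.1) * (G.m q.1 + G.a' q.1 * t) : ℕ) : ZMod G.Y)}

section
variable [Fintype ι] (G : NGraph T ι) (v : T → ℕ)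

/-- Source of an edge of the level graph. -/
def NGraph.vs (q : G.VE v) : T × ZMod G.Y := (G.s q.1.1, q.1.2)

/-- Target of an edge of the level graph. -/
def NGraph.vd (q : G.VE v) : T × ZMod G.Y := (G.d q.1.1, q.1.2 + ((G.D v q.1.1 : ℤ) : ZMod G.Y))

/-- Processing time of the source. -/
def NGraph.vp (q : G.VE v) : ℕ := G.p (G.s q.1.1)

/-- Height of an edge. -/
def NGraph.vD (q : G.VE v) : ℤ := G.D v q.1.1

/-- The shifted index `v j * n + θ` of occurrence `n` of task `j`. -/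
def NGraph.yy (θ : T × ZMod G.Y → ℤ) (j : T) (n : ℕ) : ℤ :=
  ((v j * n : ℕ) : ℤ) + θ (j, ((v j * n : ℕ) : ZMod G.Y))

/-- `lam i` is the maximal ratio (processing times) / (heights) over the simple closed walks of
the level graph that start at a vertex `(i, x)`. -/
structure NGraph.IsLam (lam : T → ℝ) : Prop where
  ge : ∀ i x l, Walk (G.vs v) (G.vd v) (i, x) l (i, x) → l ≠ [] → (l.map (G.vs v)).Nodup →
    ((l.map (G.vp v)).sum : ℝ) ≤ lam i * ((l.map (G.vD v)).sum : ℤ)
  att : ∀ i, ∃ x l, Walk (G.vs v) (G.vd v) (i, x) l (i, x) ∧ l ≠ [] ∧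
    (l.map (G.vs v)).Nodup ∧ lam i * ((l.map (G.vD v)).sum : ℤ) = ((l.map (G.vp v)).sum : ℝ)
  one_le : ∀ i, 1 ≤ lam i * v i

/-- `mu j` is the maximum of `lam i * v i * ∏ a' / ∏ a` over the simple walks from `i` to
`j`. -/
structure NGraph.IsMu (lam mu : T → ℝ) : Prop where
  ge : ∀ i, lam i * v i ≤ mu i
  le : ∀ e, mu (G.s e) * G.a' e ≤ mu (G.d e) * G.a e
  att : ∀ j, ∃ i l, Walk G.s G.d i l j ∧ (l.map G.s ++ [j]).Nodup ∧
    mu j * ((l.map G.a).prod : ℕ) = lam i * v i * ((l.map G.a').prod : ℕ)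

end

/-! ## Normalization of a linear graph -/

/-- The least `k ≥ 1` for which both indices of the constraint are `≥ 1`. -/
def Arc.k1 (e : Arc T) : ℤ := max 1 (max ((e.α' - e.h') / e.α') ((e.α - e.h) / e.α))

/-- The first index of the source. -/
def Arc.m1 (e : Arc T) : ℕ := (e.α' * e.k1 + e.h').toNat

/-- The first index of the target. -/
def Arc.n1 (e : Arc T) : ℕ := (e.α * e.k1 + e.h).toNat

/-- The normalized form of a linear graph. -/
def LinGraph.norm (G : LinGraph T) : NGraph T (Fin G.arcs.length) where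
  p := G.p
  s k := (G.arcs.get k).src
  d k := (G.arcs.get k).dst
  a k := (G.arcs.get k).α
  a' k := (G.arcs.get k).α'
  m k := (G.arcs.get k).m1
  n k := (G.arcs.get k).n1

end Pool.Agent.LinSched
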