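import Pool.Agent.Lib.MP_b03ab8_lc.ADefs

/-!
# The bit machine of a linear graph (part B)

The earliest schedule is simulated time unit by time unit by a program of guarded additions on
registers; the program is compiled to gates.
-/

open Finset

namespace Pool.Agent.LinSched

/-! ## Register programs -/

/-- A guarded addition: if all the conditions hold (`(r, s, true)`: register `r` is at most
register `s`; `(r, s, false)`: it is not) then `k` is added to the register `tgt`. -/
structure Instr (ρ : Type) where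
  cond : List (ρ × ρ × Bool)
  tgt : ρ
  k : ℕ

section
variable {ρ : Type}

/-- All conditions hold. -/
def Instr.holds (I : Instr ρ) (x : ρ → ℕ) : Bool :=
  I.cond.all fun c => decide (x c.1 ≤ x c.2.1) == c.2.2

/-- Execution with registers of `w` bits. -/
def Instr.exec [DecidableEq ρ] (w : ℕ) (I : Instr ρ) (x : ρ → ℕ) : ρ → ℕ :=
  if I.holds x then Function.update x I.tgt ((x I.tgt + I.k) % 2 ^ w) else x

/-- Execution of a list of instructions. -/
def runInstrs [DecidableEq ρ] (w : ℕ) (P : List (Instr ρ)) (x : ρ → ℕ) : ρ → ℕ :=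
  P.foldl (fun x I => I.exec w x) x

/-! ## Compilation to gates -/

/-- The memory bits: `w` bits for every register and three scratch bits (`0`: the guard, `1`:
comparison and carry, `2`: auxiliary). -/
abbrev Bits (ρ : Type) (w : ℕ) : Type := (ρ × Fin w) ⊕ Fin 3

/-- The gate that sets a scratch bit to a constant. -/
def gConst (ρ : Type) (w : ℕ) (v : Bool) (i : Fin 3) : Gate (Bits ρ w) :=
  ⟨fun _ _ _ => v, Sum.inr i, Sum.inr i, Sum.inr i, Sum.inr i⟩

/-- Comparison `r ≤ s`; the result is in scratch bit `1`. -/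
def cmpGates (w : ℕ) (r s : ρ) : List (Gate (Bits ρ w)) :=
  gConst ρ w true 1 :: (List.finRange w).map fun (i : Fin w) =>
    ⟨fun c x y => if x == y then c else y, Sum.inr 1, Sum.inr 1, Sum.inl (r, i), Sum.inl (s, i)⟩

/-- Test of a condition; the guard in scratch bit `0` is switched off if it fails. -/
def condGates (w : ℕ) (c : ρ × ρ × Bool) : List (Gate (Bits ρ w)) :=
  cmpGates w c.1 c.2.1 ++
    [⟨fun g u _ => g && (u == c.2.2), Sum.inr 0, Sum.inr 0, Sum.inr 1, Sum.inr 1⟩]

/-- Addition of the number `k`, or `0` if the guard is off, to the register `tgt`. -/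
def addGates (w : ℕ) (tgt : ρ) (k : ℕ) : List (Gate (Bits ρ w)) :=
  gConst ρ w false 1 :: (List.finRange w).flatMap fun (i : Fin w) =>
    [⟨fun x g c => (x && (g && k.testBit i)) || (x && c) || ((g && k.testBit i) && c),
        Sum.inr 2, Sum.inl (tgt, i), Sum.inr 0, Sum.inr 1⟩,
      ⟨fun x g c => xor x (xor (g && k.testBit i) c),
        Sum.inl (tgt, i), Sum.inl (tgt, i), Sum.inr 0, Sum.inr 1⟩,
      ⟨fun t _ _ => t, Sum.inr 1, Sum.inr 2, Sum.inr 2, Sum.inr 2⟩]

/-- The gates of an instruction. -/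
def Instr.gates (w : ℕ) (I : Instr ρ) : List (Gate (Bits ρ w)) :=
  gConst ρ w true 0 :: (I.cond.flatMap (condGates w) ++ addGates w I.tgt I.k)

/-- The gates of a program. -/
def compile (w : ℕ) (P : List (Instr ρ)) : List (Gate (Bits ρ w)) := P.flatMap (Instr.gates w)

/-- The memory content for register values `x` and scratch bits `sc`. -/
def enc (w : ℕ) (x : ρ → ℕ) (sc : Fin 3 → Bool) : Bits ρ w → Bool
  | Sum.inl (r, i) => (x r).testBit i
  | Sum.inr j => sc j

end

/-! ## The simulation program -/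

/-- The registers: constants, the last time `zmax`, the threshold `theta`, the clock, the
blocking flag, the acceptance flag; for every task `j` the number of the next occurrence
`nxt j`, the number `don j` of completed occurrences, the remaining time `rem j` of the
occurrence in execution; for every arc the next index `cn e` of its target and the
corresponding index `cm e` of its source. -/
inductive Reg (T ι : Type)
  | zero | one | zmax | theta | clock | blk | acc
  | nxt (j : T)
  | don (j : T)
  | rem (j : T)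
  | cn (e : ι)
  | cm (e : ι)
  deriving DecidableEq

/-- The registers as a sum type. -/
def Reg.equiv (T ι : Type) : Reg T ι ≃ Fin 7 ⊕ T ⊕ T ⊕ T ⊕ ι ⊕ ι where
  toFun
    | .zero => .inl 0
    | .one => .inl 1
    | .zmax => .inl 2
    | .theta => .inl 3
    | .clock => .inl 4
    | .blk => .inl 5
    | .acc => .inl 6
    | .nxt j => .inr (.inl j)
    | .don j => .inr (.inr (.inl j))
    | .rem j => .inr (.inr (.inr (.inl j)))
    | .cn e => .inr (.inr (.inr (.inr (.inl e))))
    | .cm e => .inr (.inr (.inr (.inr (.inr e))))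
  invFun
    | .inl 0 => .zero
    | .inl 1 => .one
    | .inl 2 => .zmax
    | .inl 3 => .theta
    | .inl 4 => .clock
    | .inl 5 => .blk
    | .inl 6 => .acc
    | .inr (.inl j) => .nxt j
    | .inr (.inr (.inl j)) => .don j
    | .inr (.inr (.inr (.inl j))) => .rem j
    | .inr (.inr (.inr (.inr (.inl e)))) => .cn e
    | .inr (.inr (.inr (.inr (.inr e)))) => .cm e
  left_inv r := by cases r <;> rfl
  right_inv r := by
    rcases r with i | j | j | j | e | e
    · fin_cases i <;> rfl
    all_goals rfl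

instance (T ι : Type) [Fintype T] [Fintype ι] : Fintype (Reg T ι) :=
  Fintype.ofEquiv _ (Reg.equiv T ι).symm

section
variable {T ι : Type} [DecidableEq T]

/-- The conditions `r = s`. -/
def eqc {ρ : Type} (r s : ρ) : List (ρ × ρ × Bool) := [(r, s, true), (s, r, true)]

/-- Phase 1 for task `j`: the occurrence in execution gets one time unit; it is completed if
the remaining time was `1`. -/
def prog1 (w : ℕ) (j : T) : List (Instr (Reg T ι)) :=
  [⟨eqc (.rem j) .one, .don j, 1⟩, ⟨[(.one, .rem j, true)], .rem j, 2 ^ w - 1⟩]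

/-- Phase 2 for task `j`, `E` is the list of the arcs with target `j`: test whether an arc
blocks the next occurrence of `j`; if not, start it. -/
def prog2 (G : NGraph T ι) (w : ℕ) (E : List ι) (j : T) : List (Instr (Reg T ι)) :=
  E.map (fun e => ⟨eqc (.nxt j) (.cn e) ++ [(.cm e, .don (G.s e), false), (.blk, .zero, true)],
    .blk, 1⟩) ++
  E.flatMap (fun e =>
    [⟨(.blk, .zero, true) :: eqc (.nxt j) (.cn e), .cm e, G.a' e⟩,
     ⟨(.blk, .zero, true) :: eqc (.nxt j) (.cn e), .cn e, G.a e⟩]) ++
  [⟨[(.blk, .zero, true)], .rem j, G.p j⟩, ⟨[(.blk, .zero, true)], .nxt j, 1⟩,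
   ⟨[(.one, .blk, true)], .blk, 2 ^ w - 1⟩]

/-- Phase 3: test and clock. -/
def prog3 (i : T) : List (Instr (Reg T ι)) :=
  [⟨[(.clock, .zmax, true), (.theta, .nxt i, true), (.acc, .zero, true)], .acc, 1⟩,
   ⟨[(.clock, .zmax, true)], .clock, 1⟩]

/-- The program; `Ts` is a list of the tasks, `Es` a list of the arcs. -/
def prog (G : NGraph T ι) (w : ℕ) (Ts : List T) (Es : List ι) (i : T) :
    List (Instr (Reg T ι)) :=
  Ts.flatMap (prog1 w) ++
  Ts.flatMap (fun j => prog2 G w (Es.filter fun e => decide (G.d e = j)) j) ++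
  prog3 i

/-- The initial values of the registers. -/
def regInit (G : NGraph T ι) (z θ : ℕ) : Reg T ι → ℕ
  | .one => 1
  | .zmax => z
  | .theta => θ
  | .nxt _ => 1
  | .cn e => G.n e
  | .cm e => G.m e
  | _ => 0

/-! ### Specification of the phases -/

/-- Effect of phase 1. -/
def phase1 (x : Reg T ι → ℕ) : Reg T ι → ℕ
  | .don j => if x (.rem j) = 1 then x (.don j) + 1 else x (.don j)
  | .rem j => x (.rem j) - 1
  | r => x r

/-- No arc blocks the next occurrence of `j`. -/
def NGraph.go (G : NGraph T ι) (x : Reg T ι → ℕ) (j : T) : Prop :=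
  ∀ e, G.d e = j → x (.nxt j) = x (.cn e) → x (.cm e) ≤ x (.don (G.s e))

open Classical in
/-- Effect of phase 2. -/
noncomputable def phase2 (G : NGraph T ι) (x : Reg T ι → ℕ) : Reg T ι → ℕ
  | .nxt j => if G.go x j then x (.nxt j) + 1 else x (.nxt j)
  | .rem j => if G.go x j then x (.rem j) + G.p j else x (.rem j)
  | .cn e => if G.go x (G.d e) ∧ x (.nxt (G.d e)) = x (.cn e) then x (.cn e) + G.a e
      else x (.cn e)
  | .cm e => if G.go x (G.d e) ∧ x (.nxt (G.d e)) = x (.cn e) then x (.cm e) + G.a' e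
      else x (.cm e)
  | r => x r

/-- Effect of phase 3. -/
def phase3 (i : T) (x : Reg T ι → ℕ) : Reg T ι → ℕ
  | .acc => if x .clock ≤ x .zmax ∧ x .theta ≤ x (.nxt i) ∧ x .acc ≤ x .zero then x .acc + 1
      else x .acc
  | .clock => if x .clock ≤ x .zmax then x .clock + 1 else x .clock
  | r => x r

/-- The invariant at the beginning of time `Z`. -/
structure NGraph.Inv (G : NGraph T ι) (τ : T → ℕ → ℕ) (z θ Z : ℕ) (x : Reg T ι → ℕ) :
    Prop where
  zero : x .zero = 0
  one : x .one = 1
  blk : x .blk = 0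
  zmax : x .zmax = z
  theta : x .theta = θ
  clock : x .clock = Z
  nxt_pos : ∀ j, 1 ≤ x (.nxt j)
  nxt : ∀ j n, 1 ≤ n → (n < x (.nxt j) ↔ τ j n < Z)
  don : ∀ j n, 1 ≤ n → (n ≤ x (.don j) ↔ τ j n + G.p j < Z)
  rem0 : ∀ j, x (.rem j) = 0 → ∀ n, 1 ≤ n → n < x (.nxt j) → τ j n + G.p j < Z
  rem1 : ∀ j, 0 < x (.rem j) → 2 ≤ x (.nxt j) ∧
    τ j (x (.nxt j) - 1) + G.p j + 1 = Z + x (.rem j)
  arc : ∀ e, ∃ t, x (.cn e) = G.n e + G.a e * t ∧ x (.cm e) = G.m e + G.a' e * t ∧
    x (.nxt (G.d e)) ≤ x (.cn e) ∧ (t = 0 ∨ G.n e + G.a e * (t - 1) < x (.nxt (G.d e)))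

end

/-! ## The machine -/

/-- The auxiliary number `K = 4 R ^ 54 (2 a R ^ 8 + 1)`. -/
def thrK (R a : ℕ) : ℕ := 4 * R ^ 54 * (2 * a * R ^ 8 + 1)

/-- The time up to which the schedule is simulated. -/
def thrZ (R a b : ℕ) : ℕ := 2 * b * R ^ 8 * thrK R a

/-- The threshold for the number of occurrences. -/
def thrT (R a : ℕ) : ℕ := (2 * a * R ^ 8 + 1) * thrK R a

/-- The number of bits of the registers. -/
def thrW (R a b : ℕ) : ℕ := (R ^ 3 + R * (thrZ R a b + 4) + thrT R a).size + 1

/-- The bit machine that decides whether the frequency of task `i` is larger than `a / b`. -/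
def LinGraph.machine {N : ℕ} (G : LinGraph (Fin N)) (i : Fin N) (a b : ℕ) :
    BitMachine (Bits (Reg (Fin N) (Fin G.arcs.length)) (thrW (2 ^ (G.size + 1)) a b)) where
  prog := compile _ (prog G.norm (thrW (2 ^ (G.size + 1)) a b) (List.finRange N)
    (List.finRange G.arcs.length) i)
  init := enc _ (regInit G.norm (thrZ (2 ^ (G.size + 1)) a b) (thrT (2 ^ (G.size + 1)) a))
    fun _ => false
  out := Sum.inl (.acc, ⟨0, Nat.succ_pos _⟩)

end Pool.Agent.LinSched
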