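import Pool.Agent.Lib.MP_b03ab8_lc.Defs

/-!
# Clocked automata and their linear graphs (part C)

A clocked automaton reads, in time step `k = 0, 1, 2, ...`, in its `L` layers one after the
other, the residues of `k` modulo small numbers, and updates a state from a finite set. In the
linear graph, occurrence `k` of the task `some (l, s)` means: in time step `k`, layer `l`, the
automaton is in state `s`; the task `none` gives one additional time unit (the bonus).
-/

open Finset

namespace Pool.Agent.LinSched

/-- A clocked automaton: `L` layers; layer `l` reads the residue `r` of the time modulo `g l`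
and changes the state `s` to `δ l s r`; the state after the last layer may be a bonus state;
the next time step starts with it, or, after a bonus, with `s0`. -/
structure CA (S : Type) where
  L : ℕ
  Lpos : 0 < L
  g : ℕ → ℕ
  gpos : ∀ l, 0 < g l
  δ : ℕ → S → ℕ → S
  bon : S → Bool
  s0 : S

variable {S : Type}

/-- The state after `l` layers in time step `k`, if the step starts in state `s`. -/
def CA.run (A : CA S) (k : ℕ) : ℕ → S → S
  | 0, s => s
  | l + 1, s => A.δ l (A.run k l s) (k % A.g l)

/-- The state after time step `k`, if the step starts in state `s`. -/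
def CA.F (A : CA S) (s : S) (k : ℕ) : S := A.run k A.L s

/-- The state at the beginning of time step `k` (starting with `s0` at time `0`). -/
def CA.σ (A : CA S) : ℕ → S
  | 0 => A.s0
  | k + 1 => if A.bon (A.F (A.σ k) k) then A.s0 else A.F (A.σ k) k

/-- The properties of a clocked automaton with period `M` that give the frequencies: after a
bonus state the time is a multiple of `M`, from `s0` at time `0` the automaton comes back to
`s0` at time `M`, and it has a bonus in step `M - 1` iff `b`. -/
structure CA.Good (A : CA S) (M : ℕ) (b : Bool) : Prop where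
  L3 : 3 ≤ A.L
  Mpos : 0 < M
  gdvd : ∀ l, l < A.L → A.g l ∣ M
  bonM : ∀ s k, A.bon (A.F s k) = true → M ∣ k + 1
  ret : A.σ M = A.s0
  bonus : A.bon (A.F (A.σ (M - 1)) (M - 1)) = b

/-- The tasks of the linear graph. -/
abbrev CA.Task (A : CA S) : Type := Option (Fin A.L × S)

/-- The task of layer `0` in state `s`. -/
def CA.t0 (A : CA S) (s : S) : A.Task := some (⟨0, A.Lpos⟩, s)

/-- The arc for reading the residue `r < g l` in layer `l` and state `s`: occurrence
`m ≡ r (mod g l)` of `some (l, s)` precedes the occurrence `m` of the task of the next layer,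
or, from the last layer, the occurrence `m` of `none` (bonus), or the occurrence `m + 1` of the
task of layer `0`. -/
def CA.rd (A : CA S) (l : Fin A.L) (s : S) (r : ℕ) : Arc A.Task :=
  if h : (l : ℕ) + 1 < A.L then
    ⟨some (l, s), some (⟨l + 1, h⟩, A.δ l s r), A.g l, A.g l, r - A.g l, r - A.g l⟩
  else if A.bon (A.δ l s r) then
    ⟨some (l, s), none, A.g l, A.g l, r - A.g l, r - A.g l⟩
  else
    ⟨some (l, s), A.t0 (A.δ l s r), A.g l, A.g l, r - A.g l + 1, r - A.g l⟩

/-- The arcs of the linear graph of a clocked automaton: the loops (non-reentrance), arcs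
between the task `t0 s0` and every task in both directions with shift `2`, the arc from the
bonus task to `t0 s0` with shift `1`, and the reading arcs. -/
noncomputable def CA.arcs [Fintype S] (A : CA S) : List (Arc A.Task) :=
  (univ : Finset A.Task).toList.map (fun u => ⟨u, u, 1, 1, 1, 0⟩) ++
  (univ : Finset A.Task).toList.map (fun u => ⟨u, A.t0 A.s0, 1, 1, 2, 0⟩) ++
  (univ : Finset A.Task).toList.map (fun u => ⟨A.t0 A.s0, u, 1, 1, 2, 0⟩) ++
  [⟨none, A.t0 A.s0, 1, 1, 1, 0⟩] ++
  (univ : Finset (Fin A.L × S)).toList.flatMap fun q =>
    (List.range (A.g q.1)).map fun r => A.rd q.1 q.2 r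

/-- The linear graph of a clocked automaton; all processing times are `1`. -/
noncomputable def CA.graph [Fintype S] (A : CA S) : LinGraph A.Task where
  p _ := 1
  arcs := A.arcs
  p_pos _ := Nat.one_pos
  arcs_pos := by
    intro e he
    unfold CA.arcs at he
    simp only [List.mem_append, List.mem_map, List.mem_flatMap, List.mem_singleton] at he
    rcases he with (((⟨u, _, rfl⟩ | ⟨u, _, rfl⟩) | ⟨u, _, rfl⟩) | rfl) | ⟨q, _, r, _, rfl⟩
    · simp
    · simp
    · simp
    · simp
    · unfold CA.rd
      split_ifs <;> exact ⟨A.gpos _, A.gpos _⟩

open Classical in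
/-- The explicit schedule: `L n + l`, plus the number of bonuses so far, plus `2` on the
trajectory of `s0`, plus `1` for the other states that are reachable in time step `n`. -/
noncomputable def CA.sched (A : CA S) (M : ℕ) (b : Bool) : A.Task → ℕ → ℕ
  | some (l, s), n => A.L * n + l + b.toNat * (n / M) +
      (if A.run n l (A.σ n) = s then 2 else if ∃ s', A.run n l s' = s then 1 else 0)
  | none, n => A.L * n + A.L + b.toNat * (n / M) + (if M ∣ n + 1 then 1 + b.toNat else 0)

end Pool.Agent.LinSched
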