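import Pool.Agent.Lib.MP_b03ab8_lc.CDefs

/-!
# The clocked automaton of a quantified Boolean formula (part D)

Time runs modulo `MM N = lcm (1, ..., N)`, `N = 4 n + 8`. In time step `k` the number
`y_j = 4 ^ j * k mod MM N` is known approximately (`Q`), from the residues of `k` modulo the
prime powers `gg N i`; if all the fractions `y_j / MM N`, `j ≤ n`, are seen to lie in
`[1/4, 3/4)` then the step is valid and shows an assignment (its label): `x_j = 1` iff
`y_j / MM N` is seen to be `≥ 1/2`. The labels come in lexicographic order and all occur. The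
automaton evaluates the formula by a depth first search with short-circuit evaluation: in state
`act` it evaluates the matrix at the current label and climbs up the tree; if the value of the
subtree is not known yet it waits (`wait i`) until variable `i` becomes true; `fin v`: the
value of the formula is `v`.
-/

open Finset

namespace Pool.Agent.LinSched

/-! ## The clock -/

/-- The moduli: the largest power of the prime `i` that is `≤ N`, or `1` if `i` is not
prime. -/
def gg (N i : ℕ) : ℕ := if i.Prime then i ^ Nat.log i N else 1

/-- The period. -/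
def MM (N : ℕ) : ℕ := ∏ i ∈ range (N + 1), gg N i

/-- The resolution. -/
def BB (N : ℕ) : ℕ := 16 * (N + 1)

/-- The inverse of `MM N / gg N i` modulo `gg N i`. -/
def uu (N i : ℕ) : ℕ := (((MM N / gg N i : ℕ) : ZMod (gg N i))⁻¹).val

/-- The contribution of the residue `r` modulo `gg N i` to the query: for `some j`, the
fraction `(r 4 ^ j u_i mod g_i) / g_i` in units of `1 / BB N`, for `none` (is the time `-1`
modulo `MM N`?), whether `r` is different from `g_i - 1`. -/
def qc (N : ℕ) : Option ℕ → ℕ → ℕ → ℕ
  | some j, i, r => BB N * ((r * 4 ^ j * uu N i) % gg N i) / gg N i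
  | none, i, r => if gg N i ∣ r + 1 then 0 else 1

/-- The answer to a query in time step `k`. -/
def Q (N : ℕ) (q : Option ℕ) (k : ℕ) : ℕ :=
  (∑ i ∈ range (N + 1), qc N q i (k % gg N i)) % BB N

/-- Time step `k` is valid. -/
def valid (n N k : ℕ) : Bool :=
  (List.range (n + 1)).all fun j =>
    decide (BB N ≤ 4 * Q N (some j) k ∧ 4 * Q N (some j) k < 3 * BB N)

/-- The label of time step `k`. -/
def label (n N k : ℕ) (j : Fin n) : Bool := decide (BB N ≤ 2 * Q N (some (j : ℕ)) k)

/-- The code of a label: the number with the base `4` digits `1 + x j`. -/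
def code (n : ℕ) (x : Fin n → Bool) : ℕ := ∑ j : Fin n, (1 + (x j).toNat) * 4 ^ (n - 1 - j)

/-! ## Depth first search -/

/-- The states of the search. -/
inductive St (n : ℕ)
  | act
  | wait (i : Fin n)
  | fin (v : Bool)
  deriving DecidableEq

/-- Choose the last variable `i` such that `x i` is false and the value `v` of the subtree does
not decide the quantifier `q i`. -/
def climb {n : ℕ} (q x : Fin n → Bool) (v : Bool) : Option (Fin n) :=
  (List.finRange n).foldl (fun o i => if !x i && (q i != v) then some i else o) none

/-- The state after the value `v` at the leaf `x` is known. -/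
def climbS {n : ℕ} (q x : Fin n → Bool) (v : Bool) : St n :=
  match climb q x v with
  | some i => St.wait i
  | none => St.fin v

/-- One step of the search at the label `x`. -/
def dfs {n : ℕ} (q : Fin n → Bool) (f : (Fin n → Bool) → Bool) (s : St n)
    (x : Fin n → Bool) : St n :=
  match s with
  | St.act => climbS q x (f x)
  | St.wait i => if x i then climbS q x (f x) else St.wait i
  | St.fin v => St.fin v

/-- Lists of labels in lexicographic order, with repetitions, in which every label occurs. -/
def Sorted : (n : ℕ) → List (Fin n → Bool) → Prop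
  | 0, l => l ≠ []
  | n + 1, l => ∃ l0 l1 : List (Fin n → Bool), Sorted n l0 ∧ Sorted n l1 ∧
      l = l0.map (fun x => Fin.cons false x) ++ l1.map (fun x => Fin.cons true x)

/-! ## The program -/

/-- The memory of the automaton. -/
structure Mem (n : ℕ) where
  st : St n
  valid : Bool
  trig : Bool
  cls : Bool
  all : Bool
  out : Option (Fin n)
  bon : Bool
  deriving DecidableEq

/-- The states of the search as a sum type. -/
def St.equiv (n : ℕ) : St n ≃ Option (Fin n ⊕ Bool) where
  toFun
    | .act => none
    | .wait i => some (Sum.inl i)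
    | .fin v => some (Sum.inr v)
  invFun
    | none => .act
    | some (Sum.inl i) => .wait i
    | some (Sum.inr v) => .fin v
  left_inv s := by cases s <;> rfl
  right_inv s := by rcases s with _ | i | v <;> rfl

/-- The memory as a product. -/
def Mem.equiv (n : ℕ) :
    Mem n ≃ Option (Fin n ⊕ Bool) × Bool × Bool × Bool × Bool × Option (Fin n) × Bool where
  toFun m := (St.equiv n m.st, m.valid, m.trig, m.cls, m.all, m.out, m.bon)
  invFun p := ⟨(St.equiv n).symm p.1, p.2.1, p.2.2.1, p.2.2.2.1, p.2.2.2.2.1, p.2.2.2.2.2.1,
    p.2.2.2.2.2.2⟩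
  left_inv m := by cases m; simp
  right_inv p := by simp

instance (n : ℕ) : Fintype (Mem n) := Fintype.ofEquiv _ (Mem.equiv n).symm

/-- The instructions. -/
inductive Op (n : ℕ)
  | valid (j : ℕ)
  | trig (i : Fin n)
  | lit (i : Fin n) (b : Bool)
  | endc
  | climb (i : Fin n)
  | fin

/-- The query of an instruction. -/
def Op.query {n : ℕ} : Op n → Option ℕ
  | .valid j => some j
  | .trig i => some i
  | .lit i _ => some i
  | .endc => some 0
  | .climb i => some i
  | .fin => none

/-- The memory at the beginning of a time step, with the state `s` of the search. -/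
def Mem.start {n : ℕ} (s : St n) (b : Bool) : Mem n := ⟨s, true, false, false, true, none, b⟩

/-- The state of the search at the end of a time step. -/
def Mem.newst {n : ℕ} (m : Mem n) : St n :=
  if m.valid && (m.trig || decide (m.st = St.act)) then
    match m.out with
    | some i => St.wait i
    | none => St.fin m.all
  else m.st

/-- The effect of an instruction, if the answer to its query is `a`; `B` is the resolution. -/
def Op.upd {n : ℕ} (q : Fin n → Bool) (B : ℕ) : Op n → Mem n → ℕ → Mem n
  | .valid _, m, a => { m with valid := m.valid && decide (B ≤ 4 * a ∧ 4 * a < 3 * B) }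
  | .trig i, m, a => { m with trig := m.trig || (decide (m.st = St.wait i) &&
      decide (B ≤ 2 * a)) }
  | .lit _ b, m, a => { m with cls := m.cls || (decide (B ≤ 2 * a) == b) }
  | .endc, m, _ => { m with all := m.all && m.cls, cls := false }
  | .climb i, m, a => if !decide (B ≤ 2 * a) && (q i != m.all) then { m with out := some i }
      else m
  | .fin, m, a => if a = 0 then Mem.start St.act (decide (m.newst = St.fin true))
      else Mem.start m.newst false

/-- The program of a formula. -/
def QBF.ops (Φ : QBF) : List (Op Φ.n) :=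
  (List.range (Φ.n + 1)).map Op.valid ++ (List.finRange Φ.n).map Op.trig ++
  (Φ.cl.flatMap fun c => c.map (fun l => Op.lit l.1 l.2) ++ [Op.endc]) ++
  (List.finRange Φ.n).map Op.climb ++ [Op.fin]

/-- The parameter of the clock. -/
def QBF.N (Φ : QBF) : ℕ := 4 * Φ.n + 8

/-- The state of the clocked automaton: the memory and a partial sum of the current query. -/
abbrev QBF.State (Φ : QBF) : Type := Mem Φ.n × Fin (BB Φ.N)

/-- The partial sum `0`. -/
def QBF.z (Φ : QBF) : Fin (BB Φ.N) := ⟨0, by unfold BB; omega⟩

/-- The transition in layer `l`: layer `l` belongs to instruction number `l / (N + 1)` and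
to the modulus number `l % (N + 1)`. -/
def QBF.δ (Φ : QBF) (l : ℕ) (s : Φ.State) (r : ℕ) : Φ.State :=
  let o := Φ.ops.getD (l / (Φ.N + 1)) Op.fin
  let a := ((s.2 : ℕ) + qc Φ.N o.query (l % (Φ.N + 1)) r) % BB Φ.N
  if l % (Φ.N + 1) = Φ.N then (o.upd Φ.q (BB Φ.N) s.1 a, Φ.z)
  else (s.1, ⟨a, Nat.mod_lt _ (by unfold BB; omega)⟩)

lemma gg_pos (N i : ℕ) : 0 < gg N i := by
  unfold gg; split_ifs with h
  · exact pow_pos h.pos _
  · exact Nat.one_pos

lemma ops_length_pos (Φ : QBF) : 0 < Φ.ops.length := by
  unfold QBF.ops; simp

/-- The clocked automaton of a formula. -/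
def QBF.CA (Φ : QBF) : CA Φ.State where
  L := Φ.ops.length * (Φ.N + 1)
  Lpos := Nat.mul_pos (ops_length_pos Φ) (Nat.succ_pos _)
  g l := gg Φ.N (l % (Φ.N + 1))
  gpos _ := gg_pos _ _
  δ := Φ.δ
  bon s := s.1.bon
  s0 := (Mem.start St.act false, Φ.z)

/-- The effect of the whole program in time step `k`. -/
def QBF.fold (Φ : QBF) (k : ℕ) (m : Mem Φ.n) : Mem Φ.n :=
  Φ.ops.foldl (fun m o => o.upd Φ.q (BB Φ.N) m (Q Φ.N o.query k)) m

/-- `a` approximates `y / M` in units of `1 / B`, modulo `B`. -/
def Approx (M B N y a : ℕ) : Prop :=
  ∃ z : ℤ, ((a : ℤ) + B * z) * M ≤ B * y ∧ (B : ℤ) * y < ((a : ℤ) + B * z + (N + 1)) * M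

/-- The linear graph of a quantified Boolean formula. -/
noncomputable def QBF.graph (Φ : QBF) : LinGraph Φ.CA.Task := Φ.CA.graph

end Pool.Agent.LinSched
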