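import Mathlib

/-!
# Linear precedence constraints: the objects of the problem, quantified Boolean formulas,
# bit machines

Everything the final statement speaks about, except the two explicit constructions (the linear
graph of a quantified Boolean formula, `CDefs.lean` and `DDefs.lean`, and the bit machine of a
linear graph, `BDefs.lean`).
-/

open Filter Topology Finset

namespace Pool.Agent.LinSched

/-! ## Linear graphs, schedules, frequencies -/

/-- An arc from the generic task `src` to the generic task `dst` with its four integers. -/
structure Arc (T : Type) where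
  src : T
  dst : T
  α : ℕ
  α' : ℕ
  h : ℤ
  h' : ℤ

/-- A linear graph on the set `T` of generic tasks: processing times `p i ≥ 1` and a list of
arcs with `α, α' ≥ 1`. -/
structure LinGraph (T : Type) where
  p : T → ℕ
  arcs : List (Arc T)
  p_pos : ∀ i, 0 < p i
  arcs_pos : ∀ e ∈ arcs, 0 < e.α ∧ 0 < e.α'

variable {T : Type}

/-- `t i k` is the start time of the `k`-th occurrence (`k ≥ 1`) of task `i`; start times are
nonnegative and all linear precedence constraints are satisfied. -/
def LinGraph.IsSchedule (G : LinGraph T) (t : T → ℕ → ℝ) : Prop :=
  (∀ i k, 1 ≤ k → 0 ≤ t i k) ∧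
  ∀ e ∈ G.arcs, ∀ k : ℤ, 0 < k → ∀ m n : ℕ, 1 ≤ m → 1 ≤ n →
    (m : ℤ) = e.α' * k + e.h' → (n : ℤ) = e.α * k + e.h →
    t e.src m + G.p e.src ≤ t e.dst n

/-- A linear graph is consistent if it has a schedule. -/
def LinGraph.Consistent (G : LinGraph T) : Prop := ∃ t, G.IsSchedule t

/-- The earliest schedule: the pointwise smallest one. -/
def LinGraph.IsEarliest (G : LinGraph T) (t : T → ℕ → ℝ) : Prop :=
  G.IsSchedule t ∧ ∀ s, G.IsSchedule s → ∀ i k, 1 ≤ k → t i k ≤ s i k

/-- Task `i` has frequency `φ`: in the earliest schedule `k / t(i,k) → φ`. -/
def LinGraph.HasFrequency (G : LinGraph T) (i : T) (φ : ℝ) : Prop :=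
  ∃ t, G.IsEarliest t ∧ Tendsto (fun k : ℕ => (k : ℝ) / t i k) atTop (𝓝 φ)

/-- The occurrences of every task are executed one after the other (the tasks are not
reentrant): for every task `i` the constraint `t(i,k) + p i ≤ t(i,k+1)`, `k ≥ 1`, is one of the
constraints of the graph. -/
def LinGraph.NonReentrant (G : LinGraph T) : Prop :=
  ∀ i, ∃ e ∈ G.arcs, e.src = i ∧ e.dst = i ∧ e.α = 1 ∧ e.α' = 1 ∧ e.h = 1 ∧ e.h' = 0

/-- Strong connectivity. -/
def LinGraph.StronglyConnected (G : LinGraph T) : Prop :=
  ∀ i j, Relation.ReflTransGen (fun a b => ∃ e ∈ G.arcs, e.src = a ∧ e.dst = b) i j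

/-- Every arc has `α = α'` (so every circuit has weight one). -/
def LinGraph.Balanced (G : LinGraph T) : Prop := ∀ e ∈ G.arcs, e.α = e.α'

/-- Binary size of a linear graph: for every task its processing time in binary and for every
arc the names of its two end points and its four integers in binary. -/
def LinGraph.size [Fintype T] (G : LinGraph T) : ℕ :=
  ∑ i, (1 + (G.p i).size) +
  (G.arcs.map fun e => 2 * (Fintype.card T).size + e.α.size + e.α'.size
    + (1 + e.h.natAbs.size) + (1 + e.h'.natAbs.size)).sum

/-! ## Quantified Boolean formulas -/

/-- The truth value of `Q_0 x_0 Q_1 x_1 ... f(x)`; `q i = true` means that variable `i` is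
existentially quantified. -/
def qtruth : (n : ℕ) → (Fin n → Bool) → ((Fin n → Bool) → Bool) → Bool
  | 0, _, f => f Fin.elim0
  | n + 1, q, f =>
    if q 0 then
      qtruth n (fun i => q i.succ) (fun x => f (Fin.cons false x)) ||
      qtruth n (fun i => q i.succ) (fun x => f (Fin.cons true x))
    else
      qtruth n (fun i => q i.succ) (fun x => f (Fin.cons false x)) &&
      qtruth n (fun i => q i.succ) (fun x => f (Fin.cons true x))

/-- A quantified Boolean formula in prenex form with a matrix in conjunctive normal form:
`n` variables, the quantifiers (`true` is existential), the clauses; the literal `(i, b)` says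
that variable `i` has the value `b`. -/
structure QBF where
  n : ℕ
  q : Fin n → Bool
  cl : List (List (Fin n × Bool))

/-- The value of the matrix. -/
def QBF.matrix (Φ : QBF) (x : Fin Φ.n → Bool) : Bool :=
  Φ.cl.all fun c => c.any fun l => x l.1 == l.2

/-- The truth value of the formula. -/
def QBF.truth (Φ : QBF) : Bool := qtruth Φ.n Φ.q Φ.matrix

/-- The length of the formula: number of variables, of clauses and of literals. -/
def QBF.len (Φ : QBF) : ℕ := Φ.n + (Φ.cl.map fun c => c.length + 1).sum

/-! ## Bit machines -/

/-- A gate: bit `dst` of the memory becomes a Boolean function of the bits `a`, `b`, `c`. -/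
structure Gate (W : Type) where
  f : Bool → Bool → Bool → Bool
  dst : W
  a : W
  b : W
  c : W

/-- A bit machine with memory bits indexed by `W`: a straight line program of gates, which is
executed over and over again, the initial content of the memory and the output bit. -/
structure BitMachine (W : Type) where
  prog : List (Gate W)
  init : W → Bool
  out : W

variable {W : Type} [DecidableEq W]

/-- Execution of a gate. -/
def Gate.exec (g : Gate W) (x : W → Bool) : W → Bool :=
  Function.update x g.dst (g.f (x g.a) (x g.b) (x g.c))

/-- Execution of a straight line program. -/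
def runGates (P : List (Gate W)) (x : W → Bool) : W → Bool := P.foldl (fun x g => g.exec x) x

/-- The machine accepts if after some number of executions of its program the output bit is
on. -/
def BitMachine.Accepts (M : BitMachine W) : Prop :=
  ∃ k : ℕ, ((runGates M.prog)^[k] M.init) M.out = true

/-- The number of memory bits plus the number of gates. -/
def BitMachine.size [Fintype W] (M : BitMachine W) : ℕ := Fintype.card W + M.prog.length

end Pool.Agent.LinSched
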